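import Mathlib
import Pool.Agent.Helper58_PPZ.Rel
import Pool.Agent.Helper3_PPE.Stmts

/-!
# Squad PPE, module REL
-/

set_option autoImplicit false

universe u

namespace Pool.Agent.PPE.H58

open PGH PPX PPZ PPZ.H58

theorem rel_count {n h X Z T H G S1 S2 N1 N2 d1 d2 K : ℕ} (hh : 0 < K * h)
    (e0 : n ≤ G + (S1 * X + S2 * Z))
    (e1 : G ≤ H) (e2 : H ≤ d1 * X + d2 * Z + 16 * T + (S2 * Z + S1 * X)) (e3 : T ≤ K * h)
    (e4 : N1 * X ≤ n + K * h) (e5 : N2 * Z ≤ n + K * h) (e6 : 16 * S1 * X ≤ n)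
    (e7 : 16 * S2 * Z ≤ n) (e8 : 400 * K * h ≤ 4 * n) (e9 : 4 * d1 ≤ N1) (e10 : 4 * d2 ≤ N2) :
    False := by
  have h1 : 4 * (d1 * X) ≤ n + K * h := by
    have := Nat.mul_le_mul_right X e9
    nlinarith
  have h2 : 4 * (d2 * Z) ≤ n + K * h := by
    have := Nat.mul_le_mul_right Z e10
    nlinarith
  rw [Nat.mul_assoc] at e8
  have h3 : 16 * (S1 * X) ≤ n := by
    have : 16 * (S1 * X) = 16 * S1 * X := by ring
    omega
  have h4 : 16 * (S2 * Z) ≤ n := by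
    have : 16 * (S2 * Z) = 16 * S2 * Z := by ring
    omega
  omega

theorem rel (K : ℕ) (hN : NodStmt.{u} K) (hZ : ZerStmt.{u}) (hV : ValStmt.{u} K) :
    RelStmt.{u} K := by
  classical
  refine ⟨400 * K, ?_⟩
  intro k _ _ _ N₁ N₂ a b hN1 hN2 ha hb s₁ s₂ ρ₁ ρ₂
  obtain ⟨c, hc0, hc⟩ := exists_sol (kap a b s₁ s₂ ρ₁ ρ₂) a b
  refine ⟨qp (N₁ / 4) (N₂ / 4) c, qp_ne _ _ c hc0, ?_⟩
  intro C hord hsmall
  obtain ⟨hfin, hpos, hn1, hn2, hn, hth, -, hcx, hcz, hconst, hth0⟩ := hN a b ha hb C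
  obtain ⟨W, hW⟩ : ∃ W, W = ∑ l : Fin 17, C.ev2 (qp (N₁ / 4) (N₂ / 4) c l) * C.th ^ (l : ℕ) *
    phs C s₁ s₂ ρ₁ ρ₂ l := ⟨_, rfl⟩
  rw [← hW]
  by_contra hW0
  have hx : ∀ c : k, C.x - algebraMap k C.E c ≠ 0 := fun c h0 =>
    (hconst c).1 (sub_eq_zero.1 h0).symm
  have hz : ∀ c : k, C.z - algebraMap k C.E c ≠ 0 := fun c h0 =>
    (hconst c).2 (sub_eq_zero.1 h0).symm
  have hph : C.ph ≠ 0 := by
    unfold BC.ph BC.g BC.f
    refine div_ne_zero (mul_ne_zero hth0 (pow_ne_zero _ ?_)) (pow_ne_zero _ ?_)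
    · exact Finset.prod_ne_zero_iff.2 fun j _ => hz _
    · exact Finset.prod_ne_zero_iff.2 fun i _ => hx _
  -- zeros at the good nodes
  have hzero : ∀ (i : Fin N₁) (j : Fin N₂) (P : Place k C.E), C.Nd i j P → a i ∉ s₁ → b j ∉ s₂ →
      P.Ge 1 W := by
    intro i j P hP hi hj
    obtain ⟨τ, hτ, hpt, -, -, hγ⟩ := hV a b ha hb C i j P hP
    have r1 : Rs P C.x (a i) := hpt 0
    have r2 : Rs P C.z (b j) := hpt 1
    have r3 : Rs P (C.th * C.ph) ((dpr b j / dpr a i) ^ 2) := hγ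
    have r4 : ∀ l : Fin 17, Rs P (C.ev2 (qp (N₁ / 4) (N₂ / 4) c l) * C.th ^ (l : ℕ) *
        phs C s₁ s₂ ρ₁ ρ₂ l) (MvPolynomial.eval ![a i, b j] (qp (N₁ / 4) (N₂ / 4) c l) *
          kap a b s₁ s₂ ρ₁ ρ₂ (i, j) l) := by
      intro l
      have h1 : C.ev2 (qp (N₁ / 4) (N₂ / 4) c l) * C.th ^ (l : ℕ) * phs C s₁ s₂ ρ₁ ρ₂ l =
          C.ev2 (qp (N₁ / 4) (N₂ / 4) c l) * ((C.th * C.ph) ^ (l : ℕ) *
          (∏ c ∈ s₁, (C.x - algebraMap k C.E c) ^ ⌊((l : ℕ) : ℚ) * ρ₁ c⌋) *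
          ∏ c ∈ s₂, (C.z - algebraMap k C.E c) ^ (-⌊((l : ℕ) : ℚ) * ρ₂ c⌋)) := by
        unfold phs
        rw [mul_pow]; ring
      rw [h1]
      refine (Rs.aeval r1 r2 _).mul ?_
      unfold kap
      refine ((r3.pow _).mul (Rs.prod _ _ _ fun c hc => ?_)).mul (Rs.prod _ _ _ fun c hc => ?_)
      · refine (r1.sub (Rs.const P c)).zpow ?_ _
        intro h0
        exact hi ((sub_eq_zero.1 h0) ▸ hc)
      · refine (r2.sub (Rs.const P c)).zpow ?_ _
        intro h0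
        exact hj ((sub_eq_zero.1 h0) ▸ hc)
    have r5 := Rs.sum Finset.univ _ _ fun l _ => r4 l
    rw [← hW, hc (i, j)] at r5
    unfold Rs at r5
    rwa [map_zero, sub_zero] at r5
  -- poles
  have hpole : ∀ P : Place k C.E, P.Ge (-((N₁ / 4 : ℕ) * mp P C.x + (N₂ / 4 : ℕ) * mp P C.z +
      16 * mp P C.th + (∑ c ∈ s₂, mp P (C.z - algebraMap k C.E c) +
        ∑ c ∈ s₁, mp P (C.x - algebraMap k C.E c)⁻¹))) W := by
    intro P
    rw [hW]
    refine Place.Ge.sum fun l _ => ?_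
    have h1 : P.Ge (-((N₁ / 4 : ℕ) * mp P C.x + (N₂ / 4 : ℕ) * mp P C.z))
        (C.ev2 (qp (N₁ / 4) (N₂ / 4) c l)) := by
      unfold BC.ev2 qp
      rw [map_sum]
      refine Place.Ge.sum fun p _ => ?_
      rw [MvPolynomial.aeval_monomial, Finsupp.prod_add_index' (by simp) (by simp [pow_add]),
        Finsupp.prod_single_index (by simp), Finsupp.prod_single_index (by simp)]
      have h2 := ge_mp_pow P C.x (Nat.lt_succ_iff.1 p.1.2)
      have h3 := ge_mp_pow P C.z (Nat.lt_succ_iff.1 p.2.2)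
      exact (P.ge_const _).mul' (h2.mul' h3 le_rfl) (by push_cast; linarith)
    have h2 : P.Ge (-(16 * mp P C.th)) (C.th ^ (l : ℕ)) :=
      ge_mp_pow P C.th (d := 16) (by omega)
    have h3 := rel_phs P C.x C.z C.ph s₁ s₂ ρ₁ ρ₂ hx hz hph (hord P) l
    exact (h1.mul' h2 le_rfl).mul' h3 (by push_cast; linarith)
  have hht := ht_bound W C.x C.z C.th s₁ s₂ _ _ hpole
  -- counting
  let Nf : Finset (Place k C.E) := hfin.toFinset
  let G : Finset (Place k C.E) := Nf.filter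
    (fun P => ∃ i j, C.Nd i j P ∧ a i ∉ s₁ ∧ b j ∉ s₂)
  let B1 : Fin N₁ → Finset (Place k C.E) := fun i =>
    Nf.filter (fun P => P.ord (C.x - algebraMap k C.E (a i)) = 1)
  let B2 : Fin N₂ → Finset (Place k C.E) := fun j =>
    Nf.filter (fun P => P.ord (C.z - algebraMap k C.E (b j)) = 1)
  let I1 : Finset (Fin N₁) := Finset.univ.filter (fun i => a i ∈ s₁)
  let I2 : Finset (Fin N₂) := Finset.univ.filter (fun j => b j ∈ s₂)
  have hcn : C.n = Nf.card := Set.ncard_eq_toFinset_card _ hfin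
  have hB1 : ∀ i, (B1 i).card ≤ ht k C.x := by
    intro i
    have h1 : {P ∈ C.nodes | P.ord (C.x - algebraMap k C.E (a i)) = 1} = (B1 i : Set _) := by
      ext P
      simp [B1, Nf]
    have h2 := hcx i
    rwa [h1, Set.ncard_coe_finset] at h2
  have hB2 : ∀ j, (B2 j).card ≤ ht k C.z := by
    intro j
    have h1 : {P ∈ C.nodes | P.ord (C.z - algebraMap k C.E (b j)) = 1} = (B2 j : Set _) := by
      ext P
      simp [B2, Nf]
    have h2 := hcz j
    rwa [h1, Set.ncard_coe_finset] at h2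
  have hI1 : I1.card ≤ s₁.card := Finset.card_le_card_of_injOn a
    (fun i hi => (Finset.mem_filter.1 hi).2) ha.injOn
  have hI2 : I2.card ≤ s₂.card := Finset.card_le_card_of_injOn b
    (fun i hi => (Finset.mem_filter.1 hi).2) hb.injOn
  have hcov : Nf ⊆ G ∪ (I1.biUnion B1 ∪ I2.biUnion B2) := by
    intro P hP
    have hP' : P ∈ C.nodes := by simpa [Nf] using hP
    obtain ⟨i, j, hPij⟩ := hP'
    by_cases hi : a i ∈ s₁
    · refine Finset.mem_union_right _ (Finset.mem_union_left _ (Finset.mem_biUnion.2 ⟨i, ?_, ?_⟩))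
      · exact Finset.mem_filter.2 ⟨Finset.mem_univ _, hi⟩
      · exact Finset.mem_filter.2 ⟨hP, hPij.2.1⟩
    · by_cases hj : b j ∈ s₂
      · refine Finset.mem_union_right _ (Finset.mem_union_right _
          (Finset.mem_biUnion.2 ⟨j, ?_, ?_⟩))
        · exact Finset.mem_filter.2 ⟨Finset.mem_univ _, hj⟩
        · exact Finset.mem_filter.2 ⟨hP, hPij.2.2⟩
      · exact Finset.mem_union_left _ (Finset.mem_filter.2 ⟨hP, i, j, hPij, hi, hj⟩)
  have e0 : C.n ≤ G.card + (s₁.card * ht k C.x + s₂.card * ht k C.z) := by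
    rw [hcn]
    refine (Finset.card_le_card hcov).trans ((Finset.card_union_le _ _).trans
      (Nat.add_le_add_left ((Finset.card_union_le _ _).trans (Nat.add_le_add ?_ ?_)) _))
    · refine Finset.card_biUnion_le.trans ((Finset.sum_le_sum fun i _ => hB1 i).trans ?_)
      rw [Finset.sum_const, smul_eq_mul]
      exact Nat.mul_le_mul_right _ hI1
    · refine Finset.card_biUnion_le.trans ((Finset.sum_le_sum fun i _ => hB2 i).trans ?_)
      rw [Finset.sum_const, smul_eq_mul]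
      exact Nat.mul_le_mul_right _ hI2
  have e1 : G.card ≤ ht k W := by
    have h1 := hZ W hW0 G (fun _ => 1) (fun P hP => by
      obtain ⟨-, i, j, hPij, hi, hj⟩ := Finset.mem_filter.1 hP
      exact hzero i j P hPij hi hj)
    simpa using h1
  have hK := C.hK
  exact rel_count (Nat.mul_pos (by omega) hpos) e0 e1 hht hth hn1 hn2 hsmall.1 hsmall.2
    (hn (400 * K) (by omega) hN1 hN2) (Nat.mul_div_le N₁ 4) (Nat.mul_div_le N₂ 4)

end Pool.Agent.PPE.H58
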